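import Mathlib

namespace Pool.Agent.Results.MP_887aa5_nt.Val5

/-- The Gaussian power sum `G_n(p)`, the sum of `(a + b i) ^ n` over `1 ≤ a, b ≤ p - 1`. -/
def G (n p : ℕ) : GaussianInt :=
  ∑ a ∈ Finset.Icc 1 (p - 1), ∑ b ∈ Finset.Icc 1 (p - 1), (⟨(a : ℤ), (b : ℤ)⟩ : GaussianInt) ^ n

/-- `v_p(x + y i) = min (v_p x) (v_p y)`, with `v_p 0 = ⊤`. -/
noncomputable def v (p : ℕ) (z : GaussianInt) : ℕ∞ :=
  min (emultiplicity (p : ℤ) z.re) (emultiplicity (p : ℤ) z.im)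

lemma val : G 30 7 = ⟨0, -6264101156848215194673755568⟩ := by decide +kernel

lemma ex : v 7 (G (5 * (7 - 1)) 7) = 5 := by
  rw [show 5 * (7 - 1) = 30 by norm_num, val, v]
  have : emultiplicity ((7 : ℕ) : ℤ) (-6264101156848215194673755568) = (5 : ℕ) :=
    emultiplicity_eq_coe.2 ⟨by norm_num, by norm_num⟩
  simp only [emultiplicity_zero, this]
  simp

theorem result :
    v 7 (G (5 * (7 - 1)) 7) = 5 ∧
    ¬ ∀ p r : ℕ, p.Prime → p % 4 = 3 → 7 ≤ p → 1 ≤ r →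
      (Even r → v p (G (r * (p - 1)) p) = 0) ∧ (Odd r → v p (G (r * (p - 1)) p) = 3) := by
  refine ⟨ex, fun h => ?_⟩
  have := (h 7 5 (by norm_num) (by norm_num) le_rfl (by norm_num)).2 (by decide)
  rw [ex] at this
  exact absurd this (by decide)

end Pool.Agent.Results.MP_887aa5_nt.Val5
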